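import Pool.Agent.N604.MW.Stm13
import Pool.Agent.N526.AD_AEXP

/-!
# Project AP, part PEXP (helper513): the full sums in terms of the sums over blocks
-/

set_option autoImplicit false

namespace Pool.Agent.N513.AP

open Finset MeasureTheory Filter Pool.Agent.N604.MW

theorem sw_eq (ν : ℕ) (w f : ℕ → ℝ) (t : ℝ) :
    SW (range (2 ^ ν)) w f t = ∑ c ∈ range (ν + 1), SW (Blk c) w f t := by
  unfold SW
  exact Pool.Agent.N526.AD.sum_blk (fun n : ℕ => (w n : ℂ) * e (t * f n)) ν

theorem sw_cont (A : Finset ℕ) (w f : ℕ → ℝ) : Continuous (SW A w f) := by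
  unfold SW
  refine continuous_finsetSum _ fun x _ => ?_
  exact continuous_const.mul (Pool.Agent.N526.AD.e_cont.comp (by fun_prop))

theorem sw_norm (A : Finset ℕ) (w f : ℕ → ℝ) (t : ℝ) : ‖SW A w f t‖ ≤ ∑ x ∈ A, |w x| := by
  unfold SW
  refine (norm_sum_le _ _).trans (Finset.sum_le_sum fun x _ => ?_)
  rw [norm_mul, Pool.Agent.N526.AD.e_norm, mul_one, Complex.norm_real, Real.norm_eq_abs]

theorem integ (h : S_ATRI) (s : ℕ) (A : Fin s → Finset ℕ) (w : ℕ → ℝ) (f : Fin s → ℕ → ℝ) (n : ℤ) :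
    Integrable (fun t : ℝ => (sq t : ℂ) * (∏ i, SW (A i) w (f i) t) * e (-(t * n))) := by
  have h1 : Integrable (fun t : ℝ => (sq t : ℂ)) := h.1.ofReal
  have hc : Continuous (fun t : ℝ => (∏ i, SW (A i) w (f i) t) * e (-(t * n))) := by
    refine (continuous_finsetProd _ fun i _ => sw_cont (A i) w (f i)).mul
      (Pool.Agent.N526.AD.e_cont.comp (by fun_prop))
  have hb : ∀ t : ℝ, ‖(∏ i, SW (A i) w (f i) t) * e (-(t * n))‖ ≤
      ∏ i, ∑ x ∈ A i, |w x| := by
    intro t
    rw [norm_mul, Pool.Agent.N526.AD.e_norm, mul_one, norm_prod]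
    exact Finset.prod_le_prod (fun i _ => norm_nonneg _) fun i _ => sw_norm (A i) w (f i) _
  have h2 : Integrable (fun t : ℝ => (sq t : ℂ) * ((∏ i, SW (A i) w (f i) t) * e (-(t * n)))) :=
    h1.mul_bdd (c := ∏ i, ∑ x ∈ A i, |w x|) hc.aestronglyMeasurable
      (Filter.Eventually.of_forall hb)
  refine h2.congr (Filter.Eventually.of_forall fun t => ?_)
  simp only [mul_assoc]

theorem ew_eq (h : S_ATRI) (s ν : ℕ) (w : ℕ → ℝ) (f : Fin s → ℕ → ℝ) (η : ℝ) (n : ℤ) :
    EW (fun _ => range (2 ^ ν)) w f η n =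
      ∑ a ∈ Fintype.piFinset (fun _ : Fin s => range (ν + 1)), EW (fun i => Blk (a i)) w f η n := by
  unfold EW
  refine Eq.trans ?_ (integral_finsetSum (μ := volume.restrict {t : ℝ | η ≤ |t|})
    (f := fun (a : Fin s → ℕ) (t : ℝ) =>
      (Pool.Agent.N604.MW.sq t : ℂ) * (∏ i, SW (Blk (a i)) w (f i) t) * e (-(t * n)))
    (Fintype.piFinset fun _ : Fin s => range (ν + 1))
    fun a _ => (integ h s (fun i => Blk (a i)) w f n).integrableOn)
  refine integral_congr_ae (Filter.Eventually.of_forall fun t => ?_)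
  simp only
  rw [Finset.prod_congr rfl fun i _ => sw_eq ν w (f i) t, Finset.prod_univ_sum, Finset.mul_sum,
    Finset.sum_mul]

theorem pexp (h : S_ATRI) : S_PEXP := by
  intro s ν w f η E0 n h0 hE
  rw [ew_eq h]
  refine (norm_sum_le _ _).trans ?_
  have h1 : ∀ a ∈ Fintype.piFinset (fun _ : Fin s => range (ν + 1)),
      ‖EW (fun i => Blk (a i)) w f η n‖ ≤ E0 := by
    intro a ha
    refine hE a fun i => ?_
    have := Finset.mem_range.1 (Fintype.mem_piFinset.1 ha i)
    omega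
  refine (Finset.sum_le_card_nsmul _ _ _ h1).trans ?_
  rw [Fintype.card_piFinset_const, card_range, nsmul_eq_mul]
  push_cast
  exact le_refl _

end Pool.Agent.N513.AP
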