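import Pool.Agent.N378.KH.Stm

/-!
# The event is measurable

It is a countable union of projections of closed sets along a compact space.
-/

set_option autoImplicit false

open MeasureTheory Finset

namespace Pool.Agent.N513.KH

open Pool.Agent.N378.KH

theorem t_MEAS : Pool.Agent.N378.KH.S_MEAS := by
  intro n m k j s Q p
  let K := Fin m → Set.Icc (-1 : ℝ) 1
  let sl : K → Fin m → ℝ := fun a l => (a l : ℝ)
  have hsl : Continuous sl := by
    refine continuous_pi fun l => ?_
    exact continuous_subtype_val.comp (continuous_apply l)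
  let C : Finset (Fin n) → ℕ → Set ((Fin n × Fin (m + 1) → ℝ) × K) := fun B r =>
    {z | (∀ i ∈ B, s * ht j (sl z.2) z.1 i + 1 / ((r : ℝ) + 1) ≤ s * ht j (sl z.2) z.1 p) ∧
      (∀ i, i ∉ Q → i ∉ B → s * ht j (sl z.2) z.1 p ≤ s * ht j (sl z.2) z.1 i) ∧
      ∀ q ∈ Q, ht j (sl z.2) z.1 q = ht j (sl z.2) z.1 p}
  have hht : ∀ i, Continuous fun z : (Fin n × Fin (m + 1) → ℝ) × K => ht j (sl z.2) z.1 i := by
    intro i
    unfold ht
    refine Continuous.sub (by fun_prop) (continuous_finsetSum _ fun l _ => ?_)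
    refine Continuous.mul ?_ (by fun_prop)
    exact (continuous_apply l).comp (hsl.comp continuous_snd)
  have hC : ∀ B r, IsClosed (C B r) := by
    intro B r
    refine IsClosed.inter ?_ (IsClosed.inter ?_ ?_)
    · have : {z : (Fin n × Fin (m + 1) → ℝ) × K | ∀ i ∈ B,
          s * ht j (sl z.2) z.1 i + 1 / ((r : ℝ) + 1) ≤ s * ht j (sl z.2) z.1 p} =
          ⋂ i ∈ B, {z | s * ht j (sl z.2) z.1 i + 1 / ((r : ℝ) + 1) ≤ s * ht j (sl z.2) z.1 p} := by
        ext z; simp
      change IsClosed {z : (Fin n × Fin (m + 1) → ℝ) × K | ∀ i ∈ B,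
          s * ht j (sl z.2) z.1 i + 1 / ((r : ℝ) + 1) ≤ s * ht j (sl z.2) z.1 p}
      rw [this]
      refine isClosed_biInter fun i _ => ?_
      exact isClosed_le ((continuous_const.mul (hht i)).add continuous_const) (continuous_const.mul (hht p))
    · have : {z : (Fin n × Fin (m + 1) → ℝ) × K | ∀ i, i ∉ Q → i ∉ B →
          s * ht j (sl z.2) z.1 p ≤ s * ht j (sl z.2) z.1 i} =
          ⋂ i, ⋂ (_ : i ∉ Q), ⋂ (_ : i ∉ B),
            {z | s * ht j (sl z.2) z.1 p ≤ s * ht j (sl z.2) z.1 i} := by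
        ext z; simp
      change IsClosed {z : (Fin n × Fin (m + 1) → ℝ) × K | ∀ i, i ∉ Q → i ∉ B →
          s * ht j (sl z.2) z.1 p ≤ s * ht j (sl z.2) z.1 i}
      rw [this]
      refine isClosed_iInter fun i => isClosed_iInter fun _ => isClosed_iInter fun _ => ?_
      exact isClosed_le (continuous_const.mul (hht p)) (continuous_const.mul (hht i))
    · have : {z : (Fin n × Fin (m + 1) → ℝ) × K | ∀ q ∈ Q,
          ht j (sl z.2) z.1 q = ht j (sl z.2) z.1 p} =
          ⋂ q ∈ Q, {z | ht j (sl z.2) z.1 q = ht j (sl z.2) z.1 p} := by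
        ext z; simp
      change IsClosed {z : (Fin n × Fin (m + 1) → ℝ) × K | ∀ q ∈ Q,
          ht j (sl z.2) z.1 q = ht j (sl z.2) z.1 p}
      rw [this]
      refine isClosed_biInter fun q _ => ?_
      exact isClosed_eq (hht q) (hht p)
  have hE : Ev (n := n) (m := m) j s k Q p = {x | ∀ e, |x e| ≤ 1} ∩
      ⋃ B : {B : Finset (Fin n) // B.card = k ∧ ∀ i ∈ B, i ∉ Q}, ⋃ r : ℕ,
        Prod.fst '' C B r := by
    ext x
    constructor
    · rintro ⟨hx, a, ⟨ha, hk⟩, hq⟩
      refine ⟨hx, ?_⟩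
      have hB : ∀ i ∈ below j s a x Q p, i ∉ Q := by
        intro i hi
        exact (Finset.mem_filter.mp hi).2.1
      have hr : ∃ r : ℕ, ∀ i ∈ below j s a x Q p,
          s * ht j a x i + 1 / ((r : ℝ) + 1) ≤ s * ht j a x p := by
        have h1 : ∀ i ∈ below j s a x Q p, ∃ r : ℕ,
            1 / ((r : ℝ) + 1) < s * ht j a x p - s * ht j a x i := by
          intro i hi
          exact exists_nat_one_div_lt (sub_pos.mpr (Finset.mem_filter.mp hi).2.2)
        choose! r hr using h1
        refine ⟨(below j s a x Q p).sup r, fun i hi => ?_⟩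
        have h2 : r i ≤ (below j s a x Q p).sup r := Finset.le_sup hi
        have h3 : 1 / ((((below j s a x Q p).sup r : ℕ) : ℝ) + 1) ≤ 1 / ((r i : ℝ) + 1) := by
          apply one_div_le_one_div_of_le
          · positivity
          · have : (r i : ℝ) ≤ (((below j s a x Q p).sup r : ℕ) : ℝ) := by exact_mod_cast h2
            linarith
        have h4 := hr i hi
        linarith
      obtain ⟨r, hr⟩ := hr
      refine Set.mem_iUnion.mpr ⟨⟨below j s a x Q p, hk, hB⟩, Set.mem_iUnion.mpr ⟨r, ?_⟩⟩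
      refine ⟨(x, fun l => ⟨a l, abs_le.mp (ha l)⟩), ⟨hr, ?_, hq⟩, rfl⟩
      intro i hi1 hi2
      by_contra hlt
      exact hi2 (Finset.mem_filter.mpr ⟨Finset.mem_univ _, hi1, not_le.mp hlt⟩)
    · rintro ⟨hx, hx2⟩
      obtain ⟨⟨B, hBk, hBQ⟩, hx3⟩ := Set.mem_iUnion.mp hx2
      obtain ⟨r, hx4⟩ := Set.mem_iUnion.mp hx3
      obtain ⟨⟨x', a⟩, ⟨h1, h2, h3⟩, rfl⟩ := hx4
      refine ⟨hx, sl a, ⟨fun l => abs_le.mpr (a l).2, ?_⟩, h3⟩
      have : below j s (sl a) x' Q p = B := by
        ext i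
        constructor
        · intro hi
          obtain ⟨-, hi1, hi2⟩ := Finset.mem_filter.mp hi
          by_contra hiB
          exact absurd (h2 i hi1 hiB) (not_le.mpr hi2)
        · intro hi
          refine Finset.mem_filter.mpr ⟨Finset.mem_univ _, hBQ i hi, ?_⟩
          have h5 := h1 i hi
          have h6 : 0 < 1 / ((r : ℝ) + 1) := by positivity
          simp only at h5
          linarith
      rw [this]
      exact hBk
  rw [hE]
  refine MeasurableSet.inter ?_ ?_
  · have : {x : Fin n × Fin (m + 1) → ℝ | ∀ e, |x e| ≤ 1} = ⋂ e, {x | |x e| ≤ 1} := by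
      ext x; simp
    rw [this]
    exact MeasurableSet.iInter fun e =>
      (isClosed_le ((continuous_apply e).abs) continuous_const).measurableSet
  · refine MeasurableSet.iUnion fun B => MeasurableSet.iUnion fun r => ?_
    exact (isClosedMap_fst_of_compactSpace _ (hC B r)).measurableSet

end Pool.Agent.N513.KH
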